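import Pool.Agent.P.MP_c161d8_an.Disc

namespace Pool.Agent.Results.MP_c161d8_an.DiscBound

/-- If the reciprocals of the exponents are summable, then on every connected plane set `K` with
at least two points the supremum over `K` of a polynomial with exponents in `S` controls its
supremum over every disc about `0` of radius smaller than the modulus of a point of `K`. -/
theorem result (S : Set ℕ) (hS : Summable fun p : S => (1 : ℝ) / ((p : ℕ) : ℝ))
    (K : Set ℂ) (hc : IsConnected K) (hn : K.Nontrivial) (w : ℂ) (hw : w ∈ K) (ρ : ℝ)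
    (hρ : ρ < ‖w‖) :
    ∃ C : ℝ, ∀ P : Polynomial ℂ, (∀ p ∈ P.support, p ∈ S) →
      ∀ δ : ℝ, (∀ z ∈ K, ‖P.eval z‖ ≤ δ) → ∀ z : ℂ, ‖z‖ ≤ ρ → ‖P.eval z‖ ≤ C * δ :=
  Pool.Agent.P.MP_c161d8_an.disc_cont hS hc.isPreconnected hn hw hρ

end Pool.Agent.Results.MP_c161d8_an.DiscBound
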