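import Pool.Agent.P.MP_c161d8_an.Final

set_option autoImplicit false

namespace Pool.Agent.Results.MP_c161d8_an.Full

theorem result (p : ℕ → ℕ) (hp : ∀ n, 0 < p n) (hs : Summable fun n => (1 : ℝ) / (p n : ℝ))
    (γ : Set ℂ) (hγ : Nonempty (γ ≃ₜ unitInterval)) :
    ¬ Dense ((Submodule.span ℂ (Set.range fun n : ℕ =>
      (ContinuousMap.mk (fun z : γ => (z : ℂ) ^ p n)
        (continuous_subtype_val.pow (p n)))) : Submodule ℂ C(γ, ℂ)) : Set C(γ, ℂ)) := by
  obtain ⟨e⟩ := hγ
  intro hd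
  let f : C(unitInterval, ℂ) := ⟨fun t => (e.symm t : ℂ), by fun_prop⟩
  have hf : Function.Injective f := fun s t h => e.symm.injective (Subtype.ext h)
  have hS : Summable (fun q : Set.range p => (1 : ℝ) / ((q : ℕ) : ℝ)) := by
    have := hs.comp_injective (Set.rangeSplitting_injective p)
    refine this.congr fun q => ?_
    simp [Set.apply_rangeSplitting]
  apply Pool.Agent.P.MP_c161d8_an.main_all (Set.range p) (by rintro _ ⟨n, rfl⟩; exact hp n) hS f hf
  rw [← Submodule.dense_iff_topologicalClosure_eq_top]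
  let L : C(γ, ℂ) →L[ℂ] C(unitInterval, ℂ) :=
    ContinuousMap.compCLM ℂ ℂ (⟨e.symm, e.symm.continuous⟩ : C(unitInterval, γ))
  have hsurj : Function.Surjective L := fun g =>
    ⟨g.comp ⟨e, e.continuous⟩, by ext t; simp [L]⟩
  refine (hsurj.denseRange.dense_image L.continuous hd).mono ?_
  rintro _ ⟨g, hg, rfl⟩
  refine Submodule.span_induction (p := fun g _ => L g ∈ Submodule.span ℂ
    (Set.range fun q : Set.range p => f ^ (q : ℕ))) ?_ ?_ ?_ ?_ hg
  · rintro _ ⟨n, rfl⟩
    exact Submodule.subset_span ⟨⟨p n, n, rfl⟩, by ext t; simp [L, f]⟩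
  · simp
  · intro x y _ _ hx hy
    rw [map_add]; exact Submodule.add_mem _ hx hy
  · intro c x _ hx
    rw [map_smul]; exact Submodule.smul_mem _ c hx

end Pool.Agent.Results.MP_c161d8_an.Full
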